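import Pool.Agent.Q43.PD.Model

/-!
# Intrinsic ergodicity of the random period doubling subshift (MP_bb668a_an, Q1)

The letters are the Booleans: `true` is `a`, `false` is `b`. All the definitions are in
`Pool/Agent/Q43/PD/Defs.lean`:

* `X` is the random substitution subshift, `IsInv μ`: `μ` is a shift-invariant Borel probability
  measure with `μ Xᶜ = 0`;
* `IsFreqMeasure μ`: `μ` is the frequency measure `μ_{1/2}`;
* `entropy μ` is the upper limit of `H_n(μ) / n`, where `H_n(μ)` is the entropy of the distribution of
  the words of length `n`; `IsMME μ`: `μ` is an invariant measure of maximal entropy.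
-/

set_option autoImplicit false

namespace Pool.Agent.Results.MP_bb668a_an.IntrinsicallyErgodic

open MeasureTheory Q43.PD

/-- The frequency measure `μ_{1/2}` exists and is unique, it is a measure of maximal entropy of the
random period doubling subshift, it is the only one, and its entropy is `2/3 log 2`. -/
theorem result : ∃ μ : Measure (ℤ → Bool),
    IsFreqMeasure μ ∧ (∀ ν : Measure (ℤ → Bool), IsFreqMeasure ν → ν = μ) ∧
    IsMME μ ∧ (∀ ν : Measure (ℤ → Bool), IsMME ν → ν = μ) ∧
    entropy μ = 2 / 3 * Real.log 2 :=
  main

end Pool.Agent.Results.MP_bb668a_an.IntrinsicallyErgodic
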